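import Pool.Agent.helper46.LOF.Top

set_option autoImplicit false

/-!
# Elements of `F` with prescribed top; countability
-/

namespace Pool.Agent.LOF

/-- the standard generator, as a bijection of the line -/
noncomputable def X0 : ℝ ≃o ℝ where
  toFun t := if t ≤ 0 then t else if t ≤ 1 / 2 then t / 2 else if t ≤ 3 / 4 then t - 1 / 4 else
    if t ≤ 1 then 2 * t - 1 else t
  invFun t := if t ≤ 0 then t else if t ≤ 1 / 4 then 2 * t else if t ≤ 1 / 2 then t + 1 / 4 else
    if t ≤ 1 then (t + 1) / 2 else t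
  left_inv := by
    intro t
    simp only
    split_ifs <;> linarith
  right_inv := by
    intro t
    simp only
    split_ifs <;> linarith
  map_rel_iff' := by
    intro a b
    simp only [Equiv.coe_fn_mk]
    split_ifs <;> constructor <;> intro h <;> linarith

lemma X0_apply (t : ℝ) : X0 t = if t ≤ 0 then t else if t ≤ 1 / 2 then t / 2 else
    if t ≤ 3 / 4 then t - 1 / 4 else if t ≤ 1 then 2 * t - 1 else t := rfl

lemma X0_pl : PLWith X0 {0, 1/2, 3/4, 1} := by
  intro x y hxy hb
  have b0 := hb 0 (by simp)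
  have b1 := hb (1/2) (by simp)
  have b2 := hb (3/4) (by simp)
  have b3 := hb 1 (by simp)
  by_cases c0 : y ≤ 0
  · refine ⟨0, 0, fun z hz => ?_⟩
    rw [X0_apply, if_pos (hz.2.trans c0)]; simp
  have d0 : 0 ≤ x := b0.resolve_right c0
  by_cases c1 : y ≤ 1/2
  · refine ⟨-1, 0, fun z hz => ?_⟩
    have h1 := hz.1
    have h2 := hz.2
    rw [X0_apply]
    have e : (2:ℝ) ^ (-1:ℤ) = 1/2 := by norm_num
    rw [e]
    split_ifs <;> linarith
  have d1 : 1/2 ≤ x := b1.resolve_right c1
  by_cases c2 : y ≤ 3/4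
  · refine ⟨0, -1/4, fun z hz => ?_⟩
    have h1 := hz.1
    have h2 := hz.2
    rw [X0_apply]
    rw [zpow_zero]
    split_ifs <;> linarith
  have d2 : 3/4 ≤ x := b2.resolve_right c2
  by_cases c3 : y ≤ 1
  · refine ⟨1, -1, fun z hz => ?_⟩
    have h1 := hz.1
    have h2 := hz.2
    rw [X0_apply]
    rw [zpow_one]
    split_ifs <;> linarith
  have d3 : 1 ≤ x := b3.resolve_right c3
  · refine ⟨0, 0, fun z hz => ?_⟩
    have h1 := hz.1
    have h2 := hz.2
    rw [X0_apply]
    rw [zpow_zero]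
    split_ifs <;> linarith

/-- the affine map `t ↦ 2 ^ m * (t - a)` -/
noncomputable def Aff (m : ℕ) (a : ℝ) : ℝ ≃o ℝ where
  toFun t := 2 ^ m * (t - a)
  invFun t := t / 2 ^ m + a
  left_inv := by
    intro t
    have : (2:ℝ) ^ m ≠ 0 := by positivity
    field_simp
    ring
  right_inv := by
    intro t
    have : (2:ℝ) ^ m ≠ 0 := by positivity
    field_simp
    ring
  map_rel_iff' := by
    intro s t
    simp only [Equiv.coe_fn_mk]
    have : (0:ℝ) < 2 ^ m := by positivity
    rw [mul_le_mul_iff_right₀ this]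
    constructor <;> intro h <;> linarith

lemma Aff_apply (m : ℕ) (a t : ℝ) : Aff m a t = 2 ^ m * (t - a) := rfl

lemma Aff_inv_apply (m : ℕ) (a t : ℝ) : ((Aff m a)⁻¹ : ℝ ≃o ℝ) t = t / 2 ^ m + a := rfl

lemma Aff_pl (m : ℕ) (a : ℝ) : PLWith (Aff m a) ∅ := by
  intro x y _ _
  refine ⟨m, -(2 ^ m * a), fun z _ => ?_⟩
  rw [Aff_apply, zpow_natCast]; ring

/-- every dyadic point of `(0,1]` is the top of an element of `F` pushing down -/
lemma exists_down (y : DD) : ∃ g ∈ F, IsTop g y.1 ∧ Down g y.1 := by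
  obtain ⟨y, ⟨j, m, hj⟩, hy0, hy1⟩ := y
  have hm : (0:ℝ) < 2 ^ m := by positivity
  have hj1 : (1:ℝ) ≤ j := by
    have : 0 < (j:ℝ) := by
      rw [hj] at hy0
      exact (div_pos_iff_of_pos_right hm).1 hy0
    have : (0:ℤ) < j := by exact_mod_cast this
    exact_mod_cast (show (1:ℤ) ≤ j by lia)
  have hj2 : (j:ℝ) ≤ 2 ^ m := by
    rw [hj, div_le_one hm] at hy1
    exact hy1
  set a : ℝ := ((j - 1 : ℤ) : ℝ) / 2 ^ m with ha
  have ha0 : 0 ≤ a := by
    rw [ha]; push_cast
    exact div_nonneg (by linarith) hm.le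
  have hya : y = a + 1 / 2 ^ m := by
    rw [hj, ha]; push_cast; ring
  set g : ℝ ≃o ℝ := (Aff m a)⁻¹ * (X0 * Aff m a) with hg
  have hgapp : ∀ t, g t = X0 (2 ^ m * (t - a)) / 2 ^ m + a := fun t => rfl
  have hlow : ∀ t ≤ a, g t = t := by
    intro t ht
    rw [hgapp, X0_apply, if_pos]
    · field_simp; ring
    · have : t - a ≤ 0 := by linarith
      exact mul_nonpos_of_nonneg_of_nonpos hm.le this
  have h1m : 2 ^ m * (y - a) = 1 := by
    rw [hya]; field_simp; ring
  have hhigh : ∀ t, y ≤ t → g t = t := by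
    intro t ht
    have i1 : 1 ≤ 2 ^ m * (t - a) := by
      rw [← h1m]
      exact mul_le_mul_of_nonneg_left (by linarith) hm.le
    have i2 : X0 (2 ^ m * (t - a)) = 2 ^ m * (t - a) := by
      rw [X0_apply]
      split_ifs <;> linarith
    rw [hgapp, i2]
    field_simp; ring
  have hdown : Down g y := by
    refine ⟨a + 3/4 / 2 ^ m, ?_, fun z hz1 hz2 => ?_⟩
    · rw [hya]
      have : (3/4 : ℝ) / 2 ^ m < 1 / 2 ^ m := by
        rw [div_lt_div_iff_of_pos_right hm]; norm_num
      linarith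
    · have i1 : 3/4 < 2 ^ m * (z - a) := by
        have h3 : 3/4/2^m < z - a := by linarith
        have := mul_lt_mul_of_pos_left h3 hm
        have h4 : (2:ℝ) ^ m * (3/4/2^m) = 3/4 := by field_simp
        rwa [h4] at this
      have i2 : 2 ^ m * (z - a) < 1 := by
        rw [← h1m]
        exact mul_lt_mul_of_pos_left (by linarith) hm
      have i3 : X0 (2 ^ m * (z - a)) = 2 * (2 ^ m * (z - a)) - 1 := by
        rw [X0_apply]
        split_ifs <;> linarith
      have i4 : z = (2 ^ m * (z - a)) / 2 ^ m + a := by field_simp; ring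
      rw [hgapp, i3]
      conv_rhs => rw [i4]
      have : (2 * (2 ^ m * (z - a)) - 1) / 2 ^ m < (2 ^ m * (z - a)) / 2 ^ m := by
        rw [div_lt_div_iff_of_pos_right hm]; linarith
      linarith
  refine ⟨g, ⟨?_, ?_⟩, ⟨hhigh, Or.inr hdown⟩, hdown⟩
  · intro x hx
    rw [Set.mem_Ioo, not_and_or, not_lt, not_lt] at hx
    rcases hx with hx | hx
    · exact hlow x (hx.trans ha0)
    · exact hhigh x (hy1.trans hx)
  · refine ⟨_, ?_, ((Aff_pl m a).inv).mul (X0_pl.mul (Aff_pl m a))⟩
    have hda : IsDyadic a := ⟨j - 1, m, ha⟩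
    have hd1 : ∀ t, IsDyadic t → IsDyadic (((Aff m a)⁻¹ : ℝ ≃o ℝ) t) := by
      intro t ht
      rw [Aff_inv_apply]
      have : t / 2 ^ m = 2 ^ (-(m:ℤ)) * t := by
        rw [zpow_neg, zpow_natCast]; field_simp
      rw [this]
      exact (ht.pow_mul _).add hda
    intro b hb
    rw [Finset.mem_union] at hb
    rcases hb with hb | hb
    · rw [Finset.mem_union] at hb
      rcases hb with hb | hb
      · simp at hb
      · rw [Finset.mem_image] at hb
        obtain ⟨c, hc, rfl⟩ := hb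
        refine hd1 _ ?_
        simp only [Finset.mem_insert, Finset.mem_singleton] at hc
        rcases hc with rfl | rfl | rfl | rfl
        · simpa using IsDyadic.int 0
        · exact ⟨1, 1, by norm_num⟩
        · exact ⟨3, 2, by norm_num⟩
        · simpa using IsDyadic.int 1
    · simp at hb

/-! ### countability -/

lemma countable_dyadic : {x : ℝ | IsDyadic x}.Countable := by
  have : {x : ℝ | IsDyadic x} = Set.range fun p : ℤ × ℕ => (p.1 : ℝ) / 2 ^ p.2 := by
    ext x
    constructor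
    · rintro ⟨a, n, rfl⟩; exact ⟨(a, n), rfl⟩
    · rintro ⟨⟨a, n⟩, rfl⟩; exact ⟨a, n, rfl⟩
  rw [this]
  exact Set.countable_range _

instance : Countable {x : ℝ // IsDyadic x} := countable_dyadic.to_subtype

instance : Countable DD := by
  have : Function.Injective (fun y : DD => (⟨y.1, y.2.1⟩ : {x : ℝ // IsDyadic x})) := by
    intro a b h
    exact Subtype.ext (congrArg (fun t : {x : ℝ // IsDyadic x} => t.1) h)
  exact this.countable

/-- two piecewise linear maps with the same breakpoints and the same values there agree -/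
lemma pl_ext {f g : ℝ ≃o ℝ} {B : Finset ℝ} (hf : PLWith f B) (hg : PLWith g B)
    (hf0 : ∀ x, x ∉ Set.Ioo (0 : ℝ) 1 → f x = x) (hg0 : ∀ x, x ∉ Set.Ioo (0 : ℝ) 1 → g x = x)
    (h : ∀ b ∈ B, f b = g b) : f = g := by
  classical
  ext x
  by_cases hx : x ∈ Set.Ioo (0 : ℝ) 1
  swap
  · rw [hf0 x hx, hg0 x hx]
  set C := insert 0 (insert 1 B) with hC
  have hfC : PLWith f C := hf.mono (by intro b hb; simp [hC, hb])
  have hgC : PLWith g C := hg.mono (by intro b hb; simp [hC, hb])
  have hval : ∀ b ∈ C, f b = g b := by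
    intro b hb
    simp only [hC, Finset.mem_insert] at hb
    rcases hb with rfl | rfl | hb
    · rw [hf0 0 (by simp), hg0 0 (by simp)]
    · rw [hf0 1 (by simp), hg0 1 (by simp)]
    · exact h b hb
  by_cases hxC : x ∈ C
  · exact hval x hxC
  have n1 : (C.filter fun b => b < x).Nonempty :=
    ⟨0, by simp only [Finset.mem_filter]; exact ⟨by simp [hC], hx.1⟩⟩
  have n2 : (C.filter fun b => x < b).Nonempty :=
    ⟨1, by simp only [Finset.mem_filter]; exact ⟨by simp [hC], hx.2⟩⟩
  obtain ⟨a, ha, hmax⟩ := Finset.exists_max_image _ id n1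
  obtain ⟨b, hb, hmin⟩ := Finset.exists_min_image _ id n2
  simp only [Finset.mem_filter, id] at ha hmax hb hmin
  have hsep : ∀ c ∈ C, c ≤ a ∨ b ≤ c := by
    intro c hc
    rcases lt_trichotomy c x with h1 | h1 | h1
    · exact Or.inl (hmax c ⟨hc, h1⟩)
    · exact absurd (h1 ▸ hc) hxC
    · exact Or.inr (hmin c ⟨hc, h1⟩)
  have hab : a < b := ha.2.trans hb.2
  obtain ⟨k, c, hk⟩ := hfC a b hab hsep
  obtain ⟨l, d, hl⟩ := hgC a b hab hsep
  have e1 := hval a ha.1
  have e2 := hval b hb.1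
  rw [hk a ⟨le_rfl, hab.le⟩, hl a ⟨le_rfl, hab.le⟩] at e1
  rw [hk b ⟨hab.le, le_rfl⟩, hl b ⟨hab.le, le_rfl⟩] at e2
  have e3 : ((2:ℝ) ^ k - 2 ^ l) * (b - a) = 0 := by linear_combination e2 - e1
  have e4 : (2:ℝ) ^ k - 2 ^ l = 0 := by
    rcases mul_eq_zero.1 e3 with h1 | h1
    · exact h1
    · exact absurd h1 (by linarith)
  rw [hk x ⟨ha.2.le, hb.2.le⟩, hl x ⟨ha.2.le, hb.2.le⟩]
  linear_combination e1 + (x - a) * e4

instance : Countable F := by
  classical
  let T := Σ B : Finset {x : ℝ // IsDyadic x}, (B → {x : ℝ // IsDyadic x})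
  have hT : Countable T := inferInstance
  have hB : ∀ g : F, ∃ B : Finset {x : ℝ // IsDyadic x},
      PLWith g.1 (B.map ⟨Subtype.val, Subtype.val_injective⟩) := by
    rintro ⟨g, h0, B, hB, hPL⟩
    refine ⟨B.subtype IsDyadic, ?_⟩
    have : (B.subtype IsDyadic).map ⟨Subtype.val, Subtype.val_injective⟩ = B := by
      ext b
      simp only [Finset.mem_map, Finset.mem_subtype, Function.Embedding.coeFn_mk, Subtype.exists,
        exists_and_right, exists_eq_right]
      constructor
      · rintro ⟨_, h⟩; exact h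
      · intro h; exact ⟨hB b h, h⟩
    rw [this]
    exact hPL
  choose BB hBB using hB
  let Θ : F → T := fun g => ⟨BB g, fun b => ⟨g.1 b.1.1, F.dyadic g.2 b.1.2⟩⟩
  have hΘ : Function.Injective Θ := by
    intro f g h
    have h1 : BB f = BB g := congrArg Sigma.fst h
    apply Subtype.ext
    refine pl_ext (hBB f) (by rw [h1]; exact hBB g) f.2.1 g.2.1 ?_
    intro b hb
    rw [Finset.mem_map] at hb
    obtain ⟨c, hc, rfl⟩ := hb
    simp only [Function.Embedding.coeFn_mk]
    have key : ∀ (t t' : T) (ht : t = t') (c : {x : ℝ // IsDyadic x}) (hc : c ∈ t.1),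
        t.2 ⟨c, hc⟩ = t'.2 ⟨c, ht ▸ hc⟩ := by
      intro t t' ht c hc
      subst ht; rfl
    have := key _ _ h c hc
    exact congrArg Subtype.val this
  exact hΘ.countable

end Pool.Agent.LOF
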