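import Pool.Agent.helper46.LOF.Amen
import Pool.Agent.helper46.LOF.Elem

set_option autoImplicit false

/-!
# The conjugacy relation on left orders of `F`
-/

open MeasureTheory Filter Topology ENNReal

namespace Pool.Agent.LOF

section Phi

open Classical in
/-- the left order of `F` attached to a choice of signs -/
noncomputable def Phi (ε : DD → Bool) : LO F :=
  ⟨fun p => decide (Pos ε (p.1⁻¹ * p.2 : F).1), by
    refine ⟨fun g => ?_, fun f g h h1 h2 => ?_, fun g h hgh => ?_, fun f g h h1 => ?_⟩
    · rw [decide_eq_false_iff_not]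
      simp only [inv_mul_cancel]
      exact not_pos_one ε
    · rw [decide_eq_true_eq] at h1 h2 ⊢
      have : (f⁻¹ * h : F).1 = (f⁻¹ * g : F).1 * (g⁻¹ * h : F).1 := by
        rw [← Subgroup.coe_mul]
        congr 1
        group
      simp only at h1 h2 ⊢
      rw [this]
      exact pos_mul h1 h2
    · rw [decide_eq_true_eq, decide_eq_true_eq]
      have h1 : (g⁻¹ * h : F).1 ≠ 1 := by
        intro h2
        have h3 : g⁻¹ * h = 1 := Subtype.ext h2
        exact hgh (inv_mul_eq_one.1 h3)
      have h2 : ((g⁻¹ * h : F).1)⁻¹ = (h⁻¹ * g : F).1 := by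
        rw [← Subgroup.coe_inv, mul_inv_rev, inv_inv]
      have := pos_or (ε := ε) (g⁻¹ * h : F).2 h1
      rw [h2] at this
      exact this
    · rw [decide_eq_true_eq] at h1 ⊢
      have : (f * g)⁻¹ * (f * h) = g⁻¹ * h := by group
      simp only
      rw [this]
      exact h1⟩

lemma Phi_apply (ε : DD → Bool) (h k : F) : (Phi ε).1 (h, k) = true ↔ Pos ε (h⁻¹ * k : F).1 := by
  classical
  show decide _ = true ↔ _
  rw [decide_eq_true_eq]

lemma Phi_injective : Function.Injective Phi := by
  intro ε ε' h
  funext y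
  obtain ⟨g, hg, htop, hdown⟩ := exists_down y
  have key : ∀ ε : DD → Bool, (Phi ε).1 (1, ⟨g, hg⟩) = true ↔ ε y = false := by
    intro ε
    rw [Phi_apply]
    have : ((1 : F)⁻¹ * ⟨g, hg⟩ : F).1 = g := by simp
    rw [this, pos_iff htop]
    constructor
    · rintro (⟨h1, _⟩ | ⟨_, h1⟩)
      · exact (not_up_down h1 hdown).elim
      · exact h1
    · intro h1; exact Or.inr ⟨hdown, h1⟩
  have h1 := key ε
  have h2 := key ε'
  rw [h] at h1
  have h3 : ε y = false ↔ ε' y = false := h1.symm.trans h2
  cases h4 : ε y <;> cases h5 : ε' y <;> simp [h4, h5] at h3 ⊢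

lemma Phi_measurable : Measurable Phi := by
  classical
  refine Measurable.subtype_mk ?_
  rw [measurable_pi_iff]
  intro p
  by_cases h : p.1⁻¹ * p.2 = 1
  · have : (fun ε : DD → Bool => decide (Pos ε (p.1⁻¹ * p.2 : F).1)) = fun _ => false := by
      funext ε
      rw [decide_eq_false_iff_not, h]
      exact not_pos_one ε
    exact this ▸ measurable_const
  · have h1 : (p.1⁻¹ * p.2 : F).1 ≠ 1 := fun h2 => h (Subtype.ext h2)
    obtain ⟨y, hy1, hy2, hy⟩ := exists_top (p.1⁻¹ * p.2 : F).2 h1
    let y' : DD := ⟨y, hy1, hy2⟩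
    have : (fun ε : DD → Bool => decide (Pos ε (p.1⁻¹ * p.2 : F).1)) =
        (fun b : Bool => decide (Up (p.1⁻¹ * p.2 : F).1 y ∧ b = true ∨
          Down (p.1⁻¹ * p.2 : F).1 y ∧ b = false)) ∘ fun ε => ε y' := by
      funext ε
      simp only [Function.comp]
      rw [decide_eq_decide]
      exact pos_iff (y := y') hy
    have hm : Measurable (fun ε : DD → Bool => decide (Pos ε (p.1⁻¹ * p.2 : F).1)) := by
      rw [this]
      exact (measurable_of_countable _).comp (measurable_pi_apply y')
    exact hm

end Phi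

/-! ### the action of `F` on the dyadic points -/

instance actDD : MulAction F DD where
  smul f y := ⟨f.1 y.1, F.dyadic f.2 y.2.1, by
    have h0 : f.1 0 = 0 := F.out f.2 (by simp)
    have h1 : f.1 1 = 1 := F.out f.2 (by simp)
    constructor
    · have := f.1.strictMono y.2.2.1
      rwa [h0] at this
    · have := f.1.monotone y.2.2.2
      rwa [h1] at this⟩
  one_smul y := Subtype.ext rfl
  mul_smul f g y := Subtype.ext rfl

lemma smul_DD_val (f : F) (y : DD) : (f • y).1 = f.1 y.1 := rfl

/-- the action on sign choices -/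
instance actSigns : MulAction F (DD → Bool) where
  smul f ε := fun y => ε (f⁻¹ • y)
  one_smul ε := by
    funext y
    show ε ((1 : F)⁻¹ • y) = ε y
    rw [inv_one, one_smul]
  mul_smul f g ε := by
    funext y
    show ε ((f * g)⁻¹ • y) = ε (g⁻¹ • f⁻¹ • y)
    rw [mul_inv_rev, mul_smul]

lemma smul_signs (f : F) (ε : DD → Bool) (y : DD) : (f • ε) y = ε (f⁻¹ • y) := rfl

/-- `Pos` is equivariant -/
lemma pos_smul {f : F} {ε : DD → Bool} {g : ℝ ≃o ℝ} (h : Pos ε g) :
    Pos (f • ε) (f.1 * g * f.1⁻¹) := by
  obtain ⟨y, hy, h2⟩ := h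
  refine ⟨f • y, hy.conj, ?_⟩
  have : (f • ε) (f • y) = ε y := by rw [smul_signs, inv_smul_smul]
  rw [this]
  rcases h2 with h2 | h2
  · exact Or.inl ⟨h2.1.conj, h2.2⟩
  · exact Or.inr ⟨h2.1.conj, h2.2⟩

lemma Phi_smul (f : F) (ε : DD → Bool) : Phi (f • ε) = conj f (Phi ε) := by
  apply Subtype.ext
  funext p
  rw [Bool.eq_iff_iff]
  show (Phi (f • ε)).1 (p.1, p.2) = true ↔ (Phi ε).1 (p.1 * f, p.2 * f) = true
  rw [Phi_apply, Phi_apply]
  have e1 : ((p.1 * f)⁻¹ * (p.2 * f) : F).1 = (f⁻¹).1 * (p.1⁻¹ * p.2 : F).1 * (f⁻¹).1⁻¹ := by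
    have : (p.1 * f)⁻¹ * (p.2 * f) = f⁻¹ * (p.1⁻¹ * p.2) * (f⁻¹)⁻¹ := by group
    rw [this]
    rfl
  rw [e1]
  constructor
  · intro h
    have := pos_smul (f := f⁻¹) h
    rwa [inv_smul_smul] at this
  · intro h
    have h2 := pos_smul (f := f) h
    have e2 : f.1 * ((f⁻¹).1 * (p.1⁻¹ * p.2 : F).1 * (f⁻¹).1⁻¹) * f.1⁻¹ = (p.1⁻¹ * p.2 : F).1 := by
      rw [Subgroup.coe_inv]
      group
    rwa [e2] at h2

/-! ### the Bernoulli measure -/

/-- the fair coin -/
noncomputable def coin : Measure Bool := (2⁻¹ : ℝ≥0∞) • (Measure.dirac true + Measure.dirac false)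

instance : IsProbabilityMeasure coin := by
  constructor
  simp only [coin, Measure.smul_apply, Measure.add_apply, measure_univ, smul_eq_mul]
  rw [one_add_one_eq_two]
  exact ENNReal.inv_mul_cancel (by norm_num) (by norm_num)

lemma coin_not : coin.map not = coin := by
  have hm : Measurable not := measurable_of_countable _
  simp only [coin, Measure.map_smul]
  rw [Measure.map_add _ _ hm, Measure.map_dirac' hm, Measure.map_dirac' hm]
  simp only [Bool.not_true, Bool.not_false]
  rw [add_comm]

/-- Bernoulli measure on the sign choices -/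
noncomputable def bern : Measure (DD → Bool) := Measure.infinitePi fun _ => coin

instance : IsProbabilityMeasure bern := by unfold bern; infer_instance

lemma smul_meas (f : F) : Measurable fun ε : DD → Bool => f • ε := by
  rw [measurable_pi_iff]
  intro y
  exact measurable_pi_apply _

lemma bern_inv (f : F) : bern.map (fun ε => f • ε) = bern := by
  have h := Measure.infinitePi_map_piCongrLeft (μ := fun _ : DD => coin) (MulAction.toPerm f)
  have h2 : (MeasurableEquiv.piCongrLeft (fun _ : DD => Bool) (MulAction.toPerm f) :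
      (DD → Bool) → (DD → Bool)) = fun ε => f • ε := by
    funext ε y
    rw [MeasurableEquiv.coe_piCongrLeft]
    rw [smul_signs]
    have := Equiv.piCongrLeft_apply_apply (fun _ : DD => Bool) (MulAction.toPerm f) ε (f⁻¹ • y)
    rw [MulAction.toPerm_apply, smul_inv_smul] at this
    exact this
  rw [h2] at h
  exact h

open Classical in
/-- flip one coordinate -/
noncomputable def flip (y : DD) (ε : DD → Bool) : DD → Bool :=
  fun z => if z = y then !(ε z) else ε z

lemma flip_meas (y : DD) : Measurable (flip y) := by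
  classical
  rw [measurable_pi_iff]
  intro z
  unfold flip
  by_cases h : z = y
  · simp only [h, if_true]
    exact (measurable_of_countable not).comp (measurable_pi_apply _)
  · simp only [h, if_false]
    exact measurable_pi_apply _

lemma bern_flip (y : DD) : bern.map (flip y) = bern := by
  classical
  let φ : DD → Bool → Bool := fun z => if z = y then not else id
  have hφ : ∀ z, Measurable (φ z) := fun z => measurable_of_countable _
  have h := Measure.infinitePi_map_pi (μ := fun _ : DD => coin) hφ
  have h2 : flip y = fun (x : DD → Bool) i => φ i (x i) := by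
    funext x i
    simp only [flip, φ]
    by_cases h : i = y
    · simp [h]
    · simp [h]
  rw [← h2] at h
  have h3 : (fun i : DD => coin.map (φ i)) = fun _ => coin := by
    funext i
    simp only [φ]
    by_cases h : i = y
    · simp only [h, if_true]; exact coin_not
    · simp only [h, if_false]; exact Measure.map_id
  unfold bern
  rw [h]
  simp only [h3]

/-- the fixed point set of a nontrivial element is null -/
lemma bern_free (f : F) (hf : f ≠ 1) : bern {ε | f • ε = ε} = 0 := by
  classical
  -- a moved point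
  have hf1 : f.1 ≠ 1 := fun h => hf (Subtype.ext h)
  obtain ⟨t, ht1, ht2, htop⟩ := exists_top f.2 hf1
  obtain ⟨y0, hy0⟩ : ∃ y0 : DD, f.1 y0.1 ≠ y0.1 := by
    have hmv : ∃ e < t, ∀ z, e < z → z < t → f.1 z ≠ z := by
      rcases htop.2 with ⟨e, he, h⟩ | ⟨e, he, h⟩
      · exact ⟨e, he, fun z h1 h2 => (h z h1 h2).ne'⟩
      · exact ⟨e, he, fun z h1 h2 => (h z h1 h2).ne⟩
    obtain ⟨e, he, h⟩ := hmv
    -- a dyadic point in `(max e 0, t)`
    have hlt : max e 0 < t := max_lt he ht2.1
    obtain ⟨n, hn⟩ : ∃ n : ℕ, (1:ℝ) / 2 ^ n < t - max e 0 := by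
      obtain ⟨n, hn⟩ := exists_pow_lt_of_lt_one (show 0 < t - max e 0 by linarith)
        (show (1/2 : ℝ) < 1 by norm_num)
      refine ⟨n, ?_⟩
      rwa [one_div_pow] at hn
    have hz : IsDyadic (t - 1 / 2 ^ n) := ht1.sub ⟨1, n, by simp⟩
    have hpos : (0:ℝ) < 1 / 2 ^ n := by positivity
    have i1 : max e 0 < t - 1 / 2 ^ n := by linarith
    rw [max_lt_iff] at i1
    refine ⟨⟨t - 1 / 2 ^ n, hz, i1.2, by linarith [ht2.2]⟩, ?_⟩
    exact h _ i1.1 (by linarith)
  -- its orbit
  let z : ℕ → DD := fun n => (f ^ n) • y0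
  have hzs : ∀ n, (z (n + 1)).1 = (f ^ n).1 (f.1 y0.1) := by
    intro n
    show ((f ^ (n + 1)) • y0).1 = _
    rw [pow_succ, mul_smul]; rfl
  have hzinj : Function.Injective z := by
    have h1 : Function.Injective fun n => (z n).1 := by
      rcases lt_or_gt_of_ne hy0 with h | h
      · refine (strictAnti_nat_of_succ_lt fun n => ?_).injective
        rw [hzs]
        exact (f ^ n).1.strictMono h
      · refine (strictMono_nat_of_lt_succ fun n => ?_).injective
        rw [hzs]
        exact (f ^ n).1.strictMono h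
    intro a b hab
    exact h1 (congrArg Subtype.val hab)
  have hzmv : ∀ n, f • z n ≠ z n := by
    intro n h
    have h1 : f • z n = z (n + 1) := by
      show f • (f ^ n) • y0 = (f ^ (n + 1)) • y0
      rw [pow_succ', mul_smul]
    rw [h1] at h
    have := hzinj h
    omega
  set H : Set (DD → Bool) := {ε | f • ε = ε} with hH
  have hHm : MeasurableSet H := by
    have : H = ⋂ y : DD, {ε | ε (f⁻¹ • y) = ε y} := by
      ext ε
      simp only [hH, Set.mem_iInter]
      constructor
      · intro h y; exact congrFun h y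
      · intro h; funext y; exact h y
    rw [this]
    refine MeasurableSet.iInter fun y => ?_
    exact measurableSet_eq_fun (measurable_pi_apply _) (measurable_pi_apply _)
  -- disjointness of the translates
  have hdisj : Pairwise (Function.onFun Disjoint fun n => (flip (z n)) ⁻¹' H) := by
    intro n m hnm
    rw [Function.onFun, Set.disjoint_left]
    intro ε h1 h2
    have hne : z n ≠ z m := fun h => hnm (hzinj h)
    -- evaluate both identities
    have k1 : ∀ y, flip (z n) ε (f⁻¹ • y) = flip (z n) ε y := fun y => congrFun h1 y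
    have k2 : ∀ y, flip (z m) ε (f⁻¹ • y) = flip (z m) ε y := fun y => congrFun h2 y
    -- `y ∈ {z n, z m} ↔ f⁻¹ y ∈ {z n, z m}`
    have hx : ∀ y, xor (flip (z n) ε y) (flip (z m) ε y) = decide (y = z n ∨ y = z m) := by
      intro y
      by_cases c1 : y = z n
      · have c2 : y ≠ z m := fun h => hne (c1.symm.trans h)
        unfold flip
        rw [if_pos c1, if_neg c2]
        cases ε y <;> simp [c1]
      · by_cases c2 : y = z m
        · unfold flip
          rw [if_neg c1, if_pos c2]
          cases ε y <;> simp [c2]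
        · unfold flip
          rw [if_neg c1, if_neg c2]
          simp [c1, c2]
    have key : ∀ y, (y = z n ∨ y = z m) ↔ (f⁻¹ • y = z n ∨ f⁻¹ • y = z m) := by
      intro y
      rw [← decide_eq_decide, ← hx, ← hx, k1, k2]
    -- hence a 2-cycle
    have c1 := (key (f • z n)).2 (by rw [inv_smul_smul]; exact Or.inl rfl)
    have c2 := (key (f • z m)).2 (by rw [inv_smul_smul]; exact Or.inr rfl)
    have d1 : f • z n = z m := c1.resolve_left (hzmv n)
    have d2 : f • z m = z n := c2.resolve_right (hzmv m)
    have e1 : f.1 (z n).1 = (z m).1 := congrArg Subtype.val d1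
    have e2 : f.1 (z m).1 = (z n).1 := congrArg Subtype.val d2
    rcases lt_trichotomy (z n).1 (z m).1 with h | h | h
    · have := f.1.strictMono h
      rw [e1, e2] at this
      exact lt_asymm h this
    · exact hne (Subtype.ext h)
    · have := f.1.strictMono h
      rw [e1, e2] at this
      exact lt_asymm h this
  have hsum : ∑' _ : ℕ, bern H ≤ 1 := by
    have e1 : ∀ n, bern ((flip (z n)) ⁻¹' H) = bern H := by
      intro n
      rw [← Measure.map_apply (flip_meas _) hHm, bern_flip]
    calc ∑' n : ℕ, bern H = ∑' n, bern ((flip (z n)) ⁻¹' H) := by simp only [e1]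
      _ = bern (⋃ n, (flip (z n)) ⁻¹' H) :=
        (measure_iUnion hdisj fun n => flip_meas _ hHm).symm
      _ ≤ 1 := prob_le_one
  by_contra h0
  rw [ENNReal.tsum_const_eq_top_of_ne_zero h0] at hsum
  simp at hsum

end Pool.Agent.LOF
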