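import Pool.Agent.helper46.LOF.Defs

set_option autoImplicit false
set_option linter.unusedSectionVars false

/-!
# Hyperfinite free measure preserving actions and invariant means
-/

open MeasureTheory Filter Topology ENNReal

namespace Pool.Agent.LOF

section core

variable {G X : Type} [Group G] [MeasurableSpace X] [MulAction G X]

open Classical in
/-- number of `g ∈ A` with `x ∈ S g`. -/
noncomputable def cnt (S : G → Set X) (A : Set G) (x : X) : ℝ≥0∞ :=
  ∑' g : G, if g ∈ A then (S g).indicator (fun _ => (1 : ℝ≥0∞)) x else 0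

lemma cnt_meas [Countable G] {S : G → Set X} (hS : ∀ g, MeasurableSet (S g)) (A : Set G) :
    Measurable (cnt S A) := by
  unfold cnt
  refine Measurable.tsum fun g => ?_
  by_cases h : g ∈ A
  · simp only [h, if_true]
    exact measurable_const.indicator (hS g)
  · simp only [h, if_false]
    exact measurable_const

lemma cnt_mono {S : G → Set X} {A B : Set G} (h : A ⊆ B) (x : X) : cnt S A x ≤ cnt S B x := by
  refine ENNReal.tsum_le_tsum fun g => ?_
  by_cases h1 : g ∈ A
  · simp [h1, h h1]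
  · simp [h1]

lemma cnt_union {S : G → Set X} {A B : Set G} (h : Disjoint A B) (x : X) :
    cnt S (A ∪ B) x = cnt S A x + cnt S B x := by
  unfold cnt
  rw [← ENNReal.tsum_add]
  congr 1
  funext g
  by_cases h1 : g ∈ A
  · have h2 : g ∉ B := Set.disjoint_left.1 h h1
    simp [h1, h2]
  · by_cases h2 : g ∈ B
    · simp [h1, h2]
    · simp [h1, h2]

lemma cnt_ne_top {S : G → Set X} {x : X} (h : {g | x ∈ S g}.Finite) (A : Set G) :
    cnt S A x ≠ ⊤ := by
  classical
  refine ne_top_of_le_ne_top ?_ (cnt_mono (Set.subset_univ A) x)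
  unfold cnt
  rw [tsum_eq_sum (s := h.toFinset) (fun g hg => by
    have : x ∉ S g := by simpa using hg
    simp [this])]
  refine ENNReal.sum_ne_top.2 fun g _ => ?_
  simp only [Set.mem_univ, if_true]
  by_cases hx : x ∈ S g
  · simp [hx]
  · simp [hx]

lemma cnt_univ_pos {S : G → Set X} {x : X} (h : x ∈ S 1) : 1 ≤ cnt S Set.univ x := by
  unfold cnt
  refine le_trans ?_ (ENNReal.le_tsum (1 : G))
  simp [h]

lemma cnt_shift {S : G → Set X} {x : X} {h : G}
    (hc : ∀ g, h • x ∈ S g ↔ x ∈ S (g * h)) (A : Set G) :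
    cnt S A (h • x) = cnt S {g | g * h⁻¹ ∈ A} x := by
  classical
  unfold cnt
  rw [← (Equiv.mulRight h).tsum_eq (fun g => if g ∈ {g | g * h⁻¹ ∈ A} then
    (S g).indicator (fun _ => (1 : ℝ≥0∞)) x else 0)]
  congr 1
  funext g
  have e1 : (Equiv.mulRight h g ∈ {g | g * h⁻¹ ∈ A}) ↔ g ∈ A := by
    simp
  by_cases hg : g ∈ A
  · rw [if_pos hg, if_pos (e1.2 hg)]
    by_cases hx : h • x ∈ S g
    · have h2 : x ∈ S (Equiv.mulRight h g) := (hc g).1 hx
      rw [Set.indicator_of_mem hx, Set.indicator_of_mem h2]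
    · have h2 : x ∉ S (Equiv.mulRight h g) := fun h' => hx ((hc g).2 h')
      rw [Set.indicator_of_notMem hx, Set.indicator_of_notMem h2]
  · rw [if_neg hg, if_neg (fun h' => hg (e1.1 h'))]

/-- the normalised count -/
noncomputable def qq (S : G → Set X) (A : Set G) (x : X) : ℝ≥0∞ := cnt S A x / cnt S Set.univ x

lemma qq_meas [Countable G] {S : G → Set X} (hS : ∀ g, MeasurableSet (S g)) (A : Set G) :
    Measurable (qq S A) := (cnt_meas hS A).div (cnt_meas hS _)

lemma qq_le_one {S : G → Set X} (A : Set G) (x : X) : qq S A x ≤ 1 := by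
  unfold qq
  exact ENNReal.div_le_of_le_mul (by rw [one_mul]; exact cnt_mono (Set.subset_univ A) x)

lemma qq_univ {S : G → Set X} {x : X} (h1 : x ∈ S 1) (hf : {g | x ∈ S g}.Finite) :
    qq S Set.univ x = 1 := by
  unfold qq
  refine ENNReal.div_self ?_ (cnt_ne_top hf _)
  have := cnt_univ_pos h1
  intro h0
  rw [h0] at this
  simp at this

lemma qq_union {S : G → Set X} {A B : Set G} (h : Disjoint A B) (x : X) :
    qq S (A ∪ B) x = qq S A x + qq S B x := by
  unfold qq
  rw [cnt_union h, ENNReal.add_div]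

lemma qq_shift {S : G → Set X} {x : X} {h : G}
    (hc : ∀ g, h • x ∈ S g ↔ x ∈ S (g * h)) (A : Set G) :
    qq S A (h • x) = qq S {g | g * h⁻¹ ∈ A} x := by
  unfold qq
  rw [cnt_shift hc, cnt_shift hc]
  rfl

/-- the abstract core of the argument -/
theorem amenable_core [Countable G] (hmeas : ∀ g : G, Measurable (fun x : X => g • x))
    (μ : Measure X) [IsProbabilityMeasure μ] (hinv : ∀ g : G, μ.map (fun x => g • x) = μ)
    (Z : Set X) (hZ0 : μ Zᶜ = 0)
    (S : ℕ → G → Set X) (hS : ∀ n g, MeasurableSet (S n g))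
    (ha : ∀ x ∈ Z, ∀ n, x ∈ S n 1) (hb : ∀ x ∈ Z, ∀ n, {g | x ∈ S n g}.Finite)
    (hm : ∀ n g, S n g ⊆ S (n + 1) g) (hd : ∀ x ∈ Z, ∀ g, ∃ n, x ∈ S n g)
    (he : ∀ x ∈ Z, ∀ n h, x ∈ S n h → ∀ g, h • x ∈ S n g ↔ x ∈ S n (g * h)) :
    Amenable G := by
  classical
  have hZae : ∀ᵐ x ∂μ, x ∈ Z := by
    rw [ae_iff]; exact hZ0
  let M : ℕ → Set G → ℝ≥0∞ := fun n A => ∫⁻ x, qq (S n) A x ∂μ
  have hM1 : ∀ n A, M n A ≤ 1 := by
    intro n A
    calc M n A ≤ ∫⁻ _, 1 ∂μ := lintegral_mono fun x => qq_le_one A x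
      _ = 1 := by simp
  have hMtop : ∀ n A, M n A ≠ ⊤ := fun n A => ne_top_of_le_ne_top one_ne_top (hM1 n A)
  have hMuniv : ∀ n, M n Set.univ = 1 := by
    intro n
    have : ∀ᵐ x ∂μ, qq (S n) Set.univ x = 1 := by
      filter_upwards [hZae] with x hx
      exact qq_univ (ha x hx n) (hb x hx n)
    calc M n Set.univ = ∫⁻ _, 1 ∂μ := lintegral_congr_ae this
      _ = 1 := by simp
  have hMadd : ∀ n A B, Disjoint A B → M n (A ∪ B) = M n A + M n B := by
    intro n A B hAB
    simp only [M]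
    rw [← lintegral_add_left (qq_meas (hS n) A)]
    exact lintegral_congr fun x => qq_union hAB x
  let e : ℕ → G → ℝ≥0∞ := fun n h => μ (S n h)ᶜ
  have hshift : ∀ n A (h : G), ∫⁻ x, qq (S n) A (h • x) ∂μ = M n A := by
    intro n A h
    have := lintegral_map (μ := μ) (qq_meas (hS n) A) (hmeas h)
    rw [hinv h] at this
    exact this.symm
  have hbad : ∀ n (h : G), ∫⁻ x, (S n h)ᶜ.indicator (fun _ => (1 : ℝ≥0∞)) x ∂μ = e n h := by
    intro n h
    rw [lintegral_indicator (hS n h).compl]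
    simp [e]
  have hineq1 : ∀ n A (h : G), M n {g | g * h⁻¹ ∈ A} ≤ M n A + e n h := by
    intro n A h
    have hms : Measurable fun x : X => qq (S n) A (h • x) := (qq_meas (hS n) A).comp (hmeas h)
    rw [← hshift n A h, ← hbad n h, ← lintegral_add_left hms]
    refine lintegral_mono_ae ?_
    filter_upwards [hZae] with x hx
    by_cases hxS : x ∈ S n h
    · rw [← qq_shift (he x hx n h hxS) A]
      exact le_self_add
    · have : (S n h)ᶜ.indicator (fun _ => (1 : ℝ≥0∞)) x = 1 := by simp [hxS]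
      rw [this]
      exact (qq_le_one _ x).trans le_add_self
  have hineq2 : ∀ n A (h : G), M n A ≤ M n {g | g * h⁻¹ ∈ A} + e n h := by
    intro n A h
    rw [← hshift n A h, ← hbad n h, ← lintegral_add_left (qq_meas (hS n) _)]
    refine lintegral_mono_ae ?_
    filter_upwards [hZae] with x hx
    by_cases hxS : x ∈ S n h
    · rw [← qq_shift (he x hx n h hxS) A]
      exact le_self_add
    · have : (S n h)ᶜ.indicator (fun _ => (1 : ℝ≥0∞)) x = 1 := by simp [hxS]
      rw [this]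
      exact (qq_le_one _ _).trans le_add_self
  have he0 : ∀ h : G, Tendsto (fun n => e n h) atTop (𝓝 0) := by
    intro h
    have hanti : Antitone (fun n => (S n h)ᶜ) :=
      antitone_nat_of_succ_le fun n => Set.compl_subset_compl.2 (hm n h)
    have h1 := tendsto_measure_iInter_atTop (μ := μ) (s := fun n => (S n h)ᶜ)
      (fun n => (hS n h).compl.nullMeasurableSet) hanti ⟨0, measure_ne_top _ _⟩
    have h2 : μ (⋂ n, (S n h)ᶜ) = 0 := by
      refine measure_mono_null ?_ hZ0
      intro x hx hxZ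
      obtain ⟨n, hn⟩ := hd x hxZ h
      exact (Set.mem_iInter.1 hx n) hn
    rw [h2] at h1
    exact h1
  let a : ℕ → Set G → ℝ := fun n A => (M n A).toReal
  have ha0 : ∀ n A, a n A ∈ Set.Icc (0 : ℝ) 1 := by
    intro n A
    refine ⟨ENNReal.toReal_nonneg, ?_⟩
    have := ENNReal.toReal_mono one_ne_top (hM1 n A)
    simpa using this
  let U : Ultrafilter ℕ := hyperfilter ℕ
  have hU : (U : Filter ℕ) ≤ atTop := by
    rw [← Nat.cofinite_eq_atTop]
    exact hyperfilter_le_cofinite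
  have hlim : ∀ A : Set G, ∃ L ∈ Set.Icc (0 : ℝ) 1, Tendsto (fun n => a n A) U (𝓝 L) := by
    intro A
    have hcomp : IsCompact (Set.Icc (0 : ℝ) 1) := isCompact_Icc
    have hpr : ((U.map fun n => a n A : Ultrafilter ℝ) : Filter ℝ) ≤ 𝓟 (Set.Icc (0 : ℝ) 1) := by
      rw [le_principal_iff, Ultrafilter.coe_map, Filter.mem_map]
      exact Filter.univ_mem' fun n : ℕ => ha0 n A
    obtain ⟨L, hL, h2⟩ := hcomp.ultrafilter_le_nhds (U.map fun n => a n A) hpr
    exact ⟨L, hL, h2⟩
  choose m hm0 hmt using hlim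
  have hmadd : ∀ A B, Disjoint A B → m (A ∪ B) = m A + m B := by
    intro A B hAB
    refine tendsto_nhds_unique (hmt (A ∪ B)) ?_
    have h1 := (hmt A).add (hmt B)
    refine h1.congr fun n => ?_
    simp only [a]
    rw [hMadd n A B hAB, ENNReal.toReal_add (hMtop n A) (hMtop n B)]
  have hmuniv : m Set.univ = 1 := by
    refine tendsto_nhds_unique (hmt Set.univ) ?_
    have : (fun n => a n Set.univ) = fun _ => (1 : ℝ) := by
      funext n
      simp only [a]
      rw [hMuniv n]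
      simp
    rw [this]
    exact tendsto_const_nhds
  have hmshift : ∀ (A : Set G) (h : G), m {g | g * h⁻¹ ∈ A} = m A := by
    intro A h
    have h0 : Tendsto (fun n => (e n h).toReal) (U : Filter ℕ) (𝓝 0) := by
      have := (ENNReal.tendsto_toReal zero_ne_top).comp ((he0 h).mono_left hU)
      simpa [Function.comp_def] using this
    have h1 : Tendsto (fun n => a n {g | g * h⁻¹ ∈ A} - a n A) (U : Filter ℕ) (𝓝 0) := by
      refine squeeze_zero_norm (fun n => ?_) h0
      have hen : e n h ≠ ⊤ := measure_ne_top _ _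
      have i1 := ENNReal.toReal_mono (ENNReal.add_ne_top.2 ⟨hMtop n A, hen⟩) (hineq1 n A h)
      have i2 := ENNReal.toReal_mono (ENNReal.add_ne_top.2 ⟨hMtop n _, hen⟩) (hineq2 n A h)
      rw [ENNReal.toReal_add (hMtop n _) hen] at i1 i2
      rw [Real.norm_eq_abs, abs_le]
      constructor
      · simp only [a]; linarith
      · simp only [a]; linarith
    have h2 := (hmt {g | g * h⁻¹ ∈ A}).sub (hmt A)
    have h3 := tendsto_nhds_unique h1 h2
    linarith
  refine ⟨fun A => m {g | g⁻¹ ∈ A}, fun A => (hm0 _).1, ?_, ?_, ?_⟩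
  · simpa using hmuniv
  · intro A B hAB
    have h1 : {g : G | g⁻¹ ∈ A ∪ B} = {g | g⁻¹ ∈ A} ∪ {g | g⁻¹ ∈ B} := by ext g; simp
    show m {g : G | g⁻¹ ∈ A ∪ B} = m {g | g⁻¹ ∈ A} + m {g | g⁻¹ ∈ B}
    rw [h1]
    refine hmadd _ _ (Set.disjoint_left.2 fun g hg hg' => ?_)
    exact Set.disjoint_left.1 hAB hg hg'
  · intro g A
    have h1 : {k : G | k⁻¹ ∈ (fun x => g * x) '' A} = {k | k * (g⁻¹)⁻¹ ∈ {k : G | k⁻¹ ∈ A}} := by
      ext k
      simp only [Set.mem_image, Set.mem_ofPred_eq, inv_inv]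
      constructor
      · rintro ⟨x, hx, hk⟩
        have : (k * g)⁻¹ = x := by
          rw [mul_inv_rev, ← hk]; group
        rw [this]; exact hx
      · intro hk
        refine ⟨_, hk, ?_⟩
        group
    show m {k : G | k⁻¹ ∈ (fun x => g * x) '' A} = m {g | g⁻¹ ∈ A}
    rw [h1, hmshift]

end core

/-- the version for relations on a subtype, used in the proof -/
def HypSub (X : Type) [MeasurableSpace X] (E : X → X → Prop) : Prop :=
  ∃ R : ℕ → X → X → Prop,
    (∀ n, MeasurableSet {p : X × X | R n p.1 p.2}) ∧ (∀ n, Equivalence (R n)) ∧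
    (∀ n x, {y | R n x y}.Finite) ∧ (∀ n x y, R n x y → R (n + 1) x y) ∧
    ∀ x y, E x y ↔ ∃ n, R n x y

lemma HyperfiniteOn.sub {X : Type} [MeasurableSpace X] {E : X → X → Prop} {Y : Set X}
    (h : HyperfiniteOn Y E) : HypSub Y (fun x y => E x.1 y.1) := by
  obtain ⟨R, r1, r2, r3, r4, r5⟩ := h
  refine ⟨fun n x y => R n x.1 y.1, ?_, ?_, ?_, ?_, ?_⟩
  · intro n
    have hm : Measurable (fun p : Y × Y => (p.1.1, p.2.1)) :=
      (measurable_subtype_coe.comp measurable_fst).prodMk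
        (measurable_subtype_coe.comp measurable_snd)
    exact hm (r1 n)
  · intro n
    exact ⟨fun x => (r2 n).refl _, fun h => (r2 n).symm h, fun h1 h2 => (r2 n).trans h1 h2⟩
  · intro n x
    refine Set.Finite.of_finite_image (f := Subtype.val) ((r3 n x.1).subset ?_)
      Subtype.val_injective.injOn
    rintro _ ⟨y, hy, rfl⟩
    exact hy
  · intro n x y h; exact r4 n _ _ h
  · intro x y; exact r5 _ x.2 _ y.2

/-- hyperfinite on a conull set and essentially free imply amenable; `E` is pulled back along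
an injective map `Φ` -/
theorem amenable_of_pullback {G X L : Type} [Group G] [Countable G] [MeasurableSpace X]
    [MulAction G X] [MeasurableSpace L] (hmeas : ∀ g : G, Measurable (fun x : X => g • x))
    (μ : Measure X) [IsProbabilityMeasure μ] (hinv : ∀ g : G, μ.map (fun x => g • x) = μ)
    (hfree : ∀ g : G, g ≠ 1 → μ {x | g • x = x} = 0)
    (E : L → L → Prop) (Φ : X → L) (hΦ : Measurable Φ) (hΦi : Function.Injective Φ)
    (hΦE : ∀ (g : G) (x : X), E (Φ x) (Φ (g • x)))
    (Y : Set L) (hY : MeasurableSet Y) (hY0 : μ (Φ ⁻¹' Y)ᶜ = 0)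
    (hyp : HypSub Y (fun x y => E x.1 y.1)) : Amenable G := by
  classical
  obtain ⟨R, r1, r2, r3, r4, r5⟩ := hyp
  let Bad : G → Set X := fun k => if k = 1 then ∅ else toMeasurable μ {x | k • x = x}
  have hBad0 : ∀ k, μ (Bad k) = 0 := by
    intro k
    by_cases hk : k = 1
    · simp [Bad, hk]
    · simp only [Bad, hk, if_false]
      rw [measure_toMeasurable]
      exact hfree k hk
  let Y' : Set X := (Φ ⁻¹' Y) ∩ ⋂ k, (Bad k)ᶜ
  have hBadm : ∀ k, MeasurableSet (Bad k) := by
    intro k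
    by_cases hk : k = 1
    · simp [Bad, hk]
    · simp only [Bad, hk, if_false]
      exact measurableSet_toMeasurable _ _
  have hY'm : MeasurableSet Y' := (hΦ hY).inter (MeasurableSet.iInter fun k => (hBadm k).compl)
  have hY'0 : μ Y'ᶜ = 0 := by
    rw [Set.compl_inter, Set.compl_iInter]
    simp only [compl_compl]
    refine measure_union_null hY0 ?_
    exact (measure_iUnion_null fun k => hBad0 k)
  let Z : Set X := ⋂ g : G, (fun x => g • x) ⁻¹' Y'
  have hZm : MeasurableSet Z := MeasurableSet.iInter fun g => hmeas g hY'm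
  have hZ0 : μ Zᶜ = 0 := by
    rw [Set.compl_iInter]
    refine measure_iUnion_null fun g => ?_
    rw [← Set.preimage_compl]
    rw [← Measure.map_apply (hmeas g) hY'm.compl, hinv g]
    exact hY'0
  have hZY : ∀ x ∈ Z, ∀ g : G, Φ (g • x) ∈ Y := fun x hx g => (Set.mem_iInter.1 hx g).1
  have hZfree : ∀ x ∈ Z, ∀ k : G, k ≠ 1 → k • x ≠ x := by
    intro x hx k hk h
    have h1 := (Set.mem_iInter.1 hx 1).2
    have h2 := Set.mem_iInter.1 h1 k
    apply h2
    simp only [Bad, hk, if_false]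
    refine subset_toMeasurable _ _ ?_
    simpa using h
  -- the sets `S`
  let ψ : G → Z → Y × Y := fun g x =>
    (⟨Φ x.1, by have := hZY x.1 x.2 1; rwa [one_smul] at this⟩, ⟨Φ (g • x.1), hZY x.1 x.2 g⟩)
  have hψ : ∀ g, Measurable (ψ g) := by
    intro g
    refine Measurable.prodMk ?_ ?_
    · exact Measurable.subtype_mk (hΦ.comp measurable_subtype_coe)
    · exact Measurable.subtype_mk (hΦ.comp ((hmeas g).comp measurable_subtype_coe))
  let S : ℕ → G → Set X := fun n g => Subtype.val '' ((ψ g) ⁻¹' {p : Y × Y | R n p.1 p.2})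
  have hS : ∀ n g, MeasurableSet (S n g) := fun n g =>
    MeasurableSet.subtype_image hZm (hψ g (r1 n))
  have hmemS : ∀ n g (x : X) (hx : x ∈ Z), x ∈ S n g ↔ R n (ψ g ⟨x, hx⟩).1 (ψ g ⟨x, hx⟩).2 := by
    intro n g x hx
    constructor
    · rintro ⟨y, hy, rfl⟩; exact hy
    · intro h; exact ⟨⟨x, hx⟩, h, rfl⟩
  refine amenable_core hmeas μ hinv Z hZ0 S hS ?_ ?_ ?_ ?_ ?_
  · intro x hx n
    rw [hmemS n 1 x hx]
    have : (ψ 1 ⟨x, hx⟩).2 = (ψ 1 ⟨x, hx⟩).1 := by
      apply Subtype.ext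
      show Φ ((1 : G) • x) = Φ x
      rw [one_smul]
    rw [this]
    exact (r2 n).refl _
  · intro x hx n
    have hfin := r3 n (ψ 1 ⟨x, hx⟩).1
    refine Set.Finite.of_finite_image (f := fun g => (ψ g ⟨x, hx⟩).2) (hfin.subset ?_) ?_
    · rintro _ ⟨g, hg, rfl⟩
      exact (hmemS n g x hx).1 hg
    · intro g _ g' _ h
      have h1 : Φ (g • x) = Φ (g' • x) := congrArg Subtype.val h
      have h2 := hΦi h1
      by_contra hne
      refine hZfree x hx (g'⁻¹ * g) (fun h3 => hne ?_) ?_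
      · rw [inv_mul_eq_one] at h3; exact h3.symm
      · rw [mul_smul, h2, inv_smul_smul]
  · intro n g x hx
    obtain ⟨y, hy, rfl⟩ := hx
    exact ⟨y, r4 n _ _ hy, rfl⟩
  · intro x hx g
    have := (r5 (ψ g ⟨x, hx⟩).1 (ψ g ⟨x, hx⟩).2).1 (hΦE g x)
    obtain ⟨n, hn⟩ := this
    exact ⟨n, (hmemS n g x hx).2 hn⟩
  · intro x hx n h hxh g
    have hhx : h • x ∈ Z := by
      refine Set.mem_iInter.2 fun k => ?_
      have := Set.mem_iInter.1 hx (k * h)
      show k • h • x ∈ Y'
      rw [← mul_smul]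
      exact this
    rw [hmemS n g _ hhx, hmemS n (g * h) x hx]
    have h1 := (hmemS n h x hx).1 hxh
    have e1 : (ψ g ⟨h • x, hhx⟩).1 = (ψ h ⟨x, hx⟩).2 := rfl
    have e2 : (ψ g ⟨h • x, hhx⟩).2 = (ψ (g * h) ⟨x, hx⟩).2 := by
      apply Subtype.ext
      show Φ (g • h • x) = Φ ((g * h) • x)
      rw [mul_smul]
    have e3 : (ψ (g * h) ⟨x, hx⟩).1 = (ψ h ⟨x, hx⟩).1 := rfl
    rw [e1, e2, e3]
    constructor
    · intro h2; exact (r2 n).trans h1 h2
    · intro h2; exact (r2 n).trans ((r2 n).symm h1) h2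

end Pool.Agent.LOF
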