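import Mathlib

set_option autoImplicit false

/-!
# Definitions: amenability, hyperfiniteness, the space of left orders and the conjugacy relation
-/

namespace Pool.Agent.LOF

/-- A group is amenable: there is a finitely additive left invariant probability measure on all
its subsets. -/
def Amenable (G : Type) [Group G] : Prop :=
  ∃ m : Set G → ℝ, (∀ A, 0 ≤ m A) ∧ m Set.univ = 1 ∧
    (∀ A B, Disjoint A B → m (A ∪ B) = m A + m B) ∧
    ∀ (g : G) (A : Set G), m ((fun x => g * x) '' A) = m A

/-- The restriction of the relation `E` to the set `Y` is hyperfinite: there is an increasing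
sequence of Borel equivalence relations `R n` with finite classes whose union agrees with `E` on
`Y`. For `Y = Set.univ` this says that `E` is an increasing union of Borel equivalence relations
with finite classes, that is, `E` is hyperfinite. -/
def HyperfiniteOn {X : Type} [MeasurableSpace X] (Y : Set X) (E : X → X → Prop) : Prop :=
  ∃ R : ℕ → X → X → Prop,
    (∀ n, MeasurableSet {p : X × X | R n p.1 p.2}) ∧ (∀ n, Equivalence (R n)) ∧
    (∀ n x, {y | R n x y}.Finite) ∧ (∀ n x y, R n x y → R (n + 1) x y) ∧
    ∀ x ∈ Y, ∀ y ∈ Y, (E x y ↔ ∃ n, R n x y)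

/-- the space `LO(G)` of left orders of `G`, as a subset of `2^(G × G)`; `r (h, k) = true` means
`h < k`. It carries the `σ`-algebra induced from the product `σ`-algebra. -/
def LO (G : Type) [Group G] : Set (G × G → Bool) :=
  {r | (∀ g, r (g, g) = false) ∧
    (∀ f g h, r (f, g) = true → r (g, h) = true → r (f, h) = true) ∧
    (∀ g h, g ≠ h → r (g, h) = true ∨ r (h, g) = true) ∧
    ∀ f g h, r (g, h) = true → r (f * g, f * h) = true}

/-- the conjugate order: `h <^g k ↔ h g < k g` -/
def conj {G : Type} [Group G] (g : G) (r : LO G) : LO G :=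
  ⟨fun p => r.1 (p.1 * g, p.2 * g),
    fun h => r.2.1 _, fun f h k h1 h2 => r.2.2.1 _ _ _ h1 h2,
    fun h k hk => r.2.2.2.1 _ _ (fun h' => hk (mul_right_cancel h')),
    fun f h k h1 => by
      have := r.2.2.2.2 f _ _ h1
      rwa [← mul_assoc, ← mul_assoc] at this⟩

/-- the conjugacy relation `E_lo(G)` on `LO(G)` -/
def Elo (G : Type) [Group G] (r s : LO G) : Prop := ∃ g : G, s = conj g r

end Pool.Agent.LOF
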