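import Mathlib

set_option autoImplicit false

/-!
# Thompson's group `F` as a group of increasing homeomorphisms of the line
-/

namespace Pool.Agent.LOF

/-- dyadic rationals -/
def IsDyadic (x : ℝ) : Prop := ∃ (a : ℤ) (n : ℕ), x = (a : ℝ) / 2 ^ n

lemma IsDyadic.int (a : ℤ) : IsDyadic a := ⟨a, 0, by simp⟩

lemma IsDyadic.add {x y : ℝ} (hx : IsDyadic x) (hy : IsDyadic y) : IsDyadic (x + y) := by
  obtain ⟨a, n, rfl⟩ := hx
  obtain ⟨b, m, rfl⟩ := hy
  refine ⟨a * 2 ^ m + b * 2 ^ n, n + m, ?_⟩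
  have h1 : (2 : ℝ) ^ n ≠ 0 := by positivity
  have h2 : (2 : ℝ) ^ m ≠ 0 := by positivity
  push_cast
  rw [pow_add]
  field_simp

lemma IsDyadic.neg {x : ℝ} (hx : IsDyadic x) : IsDyadic (-x) := by
  obtain ⟨a, n, rfl⟩ := hx
  exact ⟨-a, n, by push_cast; ring⟩

lemma IsDyadic.sub {x y : ℝ} (hx : IsDyadic x) (hy : IsDyadic y) : IsDyadic (x - y) := by
  rw [sub_eq_add_neg]; exact hx.add hy.neg

lemma IsDyadic.pow_mul {x : ℝ} (hx : IsDyadic x) (k : ℤ) : IsDyadic ((2 : ℝ) ^ k * x) := by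
  obtain ⟨a, n, rfl⟩ := hx
  rcases Int.eq_nat_or_neg k with ⟨m, rfl | rfl⟩
  · refine ⟨a * 2 ^ m, n, ?_⟩
    push_cast
    rw [zpow_natCast]; ring
  · refine ⟨a, n + m, ?_⟩
    rw [zpow_neg, zpow_natCast, pow_add]
    have h1 : (2 : ℝ) ^ n ≠ 0 := by positivity
    have h2 : (2 : ℝ) ^ m ≠ 0 := by positivity
    field_simp

/-- The increasing bijection `g` of `ℝ` is piecewise linear, with all breakpoints in the finite
set `B` and all slopes integer powers of `2`: on every interval with no point of `B` in its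
interior, `g` has the form `z ↦ 2 ^ k * z + c`. -/
def PLWith (g : ℝ ≃o ℝ) (B : Finset ℝ) : Prop :=
  ∀ x y : ℝ, x < y → (∀ b ∈ B, b ≤ x ∨ y ≤ b) →
    ∃ (k : ℤ) (c : ℝ), ∀ z ∈ Set.Icc x y, g z = (2 : ℝ) ^ k * z + c

lemma PLWith.mono {g : ℝ ≃o ℝ} {B C : Finset ℝ} (h : PLWith g B) (hBC : B ⊆ C) : PLWith g C :=
  fun x y hxy hb => h x y hxy fun b hb' => hb b (hBC hb')

lemma PLWith.one (B : Finset ℝ) : PLWith 1 B := by
  intro x y _ _
  exact ⟨0, 0, fun z _ => by simp⟩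

/-- a piecewise linear map with dyadic breakpoints, slopes powers of 2, identity on the left,
maps dyadic points to dyadic points -/
lemma PLWith.dyadic {g : ℝ ≃o ℝ} {B : Finset ℝ} (h : PLWith g B) (hB : ∀ b ∈ B, IsDyadic b)
    (h0 : ∀ x ≤ 0, g x = x) {x : ℝ} (hx : IsDyadic x) : IsDyadic (g x) := by
  -- induction on the number of points of `B` in `(0, x)`
  have key : ∀ (n : ℕ) (x : ℝ), IsDyadic x → (B.filter fun b => 0 < b ∧ b < x).card = n →
      IsDyadic (g x) := by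
    intro n
    induction n using Nat.strong_induction_on with
    | _ n ih =>
    intro x hx hn
    by_cases hx0 : x ≤ 0
    · rw [h0 x hx0]; exact hx
    push Not at hx0
    by_cases hne : (B.filter fun b => 0 < b ∧ b < x).Nonempty
    · -- the largest breakpoint below
      obtain ⟨b, hb, hmax⟩ := Finset.exists_max_image _ id hne
      simp only [Finset.mem_filter, id] at hb hmax
      obtain ⟨k, c, hk⟩ := h b x hb.2.2 (by
        intro b' hb'
        by_cases h1 : b' ≤ b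
        · exact Or.inl h1
        · right
          by_contra h2
          push Not at h1 h2
          exact absurd (hmax b' ⟨hb', hb.2.1.trans h1, h2⟩) (not_le.2 h1))
      have e1 := hk b ⟨le_refl _, hb.2.2.le⟩
      have e2 := hk x ⟨hb.2.2.le, le_refl _⟩
      have hbd : IsDyadic (g b) := by
        refine ih _ ?_ b (hB b hb.1) rfl
        rw [← hn]
        refine Finset.card_lt_card ⟨?_, ?_⟩
        · intro b' hb'
          simp only [Finset.mem_filter] at hb' ⊢
          exact ⟨hb'.1, hb'.2.1, hb'.2.2.trans hb.2.2⟩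
        · intro hsub
          have : b ∈ B.filter fun b' => 0 < b' ∧ b' < b := hsub (by
            simp only [Finset.mem_filter]; exact hb)
          simp at this
      have : g x = g b + 2 ^ k * (x - b) := by rw [e1, e2]; ring
      rw [this]
      exact hbd.add ((hx.sub (hB b hb.1)).pow_mul k)
    · rw [Finset.not_nonempty_iff_eq_empty] at hne
      obtain ⟨k, c, hk⟩ := h 0 x hx0 (by
        intro b hb
        by_cases h1 : b ≤ 0
        · exact Or.inl h1
        · right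
          by_contra h2
          push Not at h1 h2
          have : b ∈ B.filter fun b => 0 < b ∧ b < x := by
            simp only [Finset.mem_filter]; exact ⟨hb, h1, h2⟩
          rw [hne] at this
          simp at this)
      have e1 := hk 0 ⟨le_refl _, hx0.le⟩
      have e2 := hk x ⟨hx0.le, le_refl _⟩
      rw [h0 0 le_rfl] at e1
      have hc : c = 0 := by linarith
      rw [e2, hc, add_zero]
      exact hx.pow_mul k
  exact key _ x hx rfl

lemma PLWith.inv {g : ℝ ≃o ℝ} {B : Finset ℝ} (h : PLWith g B) : PLWith g⁻¹ (B.image g) := by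
  intro x y hxy hb
  have h1 : (g⁻¹ : ℝ ≃o ℝ) x < (g⁻¹ : ℝ ≃o ℝ) y := (g⁻¹ : ℝ ≃o ℝ).lt_iff_lt.2 hxy
  have hg : ∀ t, g ((g⁻¹ : ℝ ≃o ℝ) t) = t := fun t => g.apply_symm_apply t
  obtain ⟨k, c, hk⟩ := h _ _ h1 (by
    intro b hb'
    rcases hb (g b) (Finset.mem_image_of_mem _ hb') with h2 | h2
    · left
      rw [← g.le_iff_le, hg]; exact h2
    · right
      rw [← g.le_iff_le, hg]; exact h2)
  refine ⟨-k, -(2 ^ (-k) * c), fun z hz => ?_⟩
  have h2 := hk ((g⁻¹ : ℝ ≃o ℝ) z) ⟨(g⁻¹ : ℝ ≃o ℝ).monotone hz.1, (g⁻¹ : ℝ ≃o ℝ).monotone hz.2⟩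
  rw [hg] at h2
  have h3 : (2 : ℝ) ^ (-k) * 2 ^ k = 1 := by
    rw [← zpow_add₀ (by norm_num)]; simp
  calc (g⁻¹ : ℝ ≃o ℝ) z = ((2 : ℝ) ^ (-k) * 2 ^ k) * (g⁻¹ : ℝ ≃o ℝ) z := by rw [h3, one_mul]
    _ = 2 ^ (-k) * (2 ^ k * (g⁻¹ : ℝ ≃o ℝ) z + c) + -(2 ^ (-k) * c) := by ring
    _ = 2 ^ (-k) * z + -(2 ^ (-k) * c) := by rw [← h2]

lemma PLWith.mul {f g : ℝ ≃o ℝ} {B C : Finset ℝ} (hf : PLWith f B) (hg : PLWith g C) :
    PLWith (f * g) (C ∪ B.image (g⁻¹ : ℝ ≃o ℝ)) := by
  intro x y hxy hb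
  obtain ⟨k, c, hk⟩ := hg x y hxy (fun b hb' => hb b (Finset.mem_union_left _ hb'))
  have hgi : ∀ t, g ((g⁻¹ : ℝ ≃o ℝ) t) = t := fun t => g.apply_symm_apply t
  obtain ⟨l, d, hl⟩ := hf (g x) (g y) (g.lt_iff_lt.2 hxy) (by
    intro b hb'
    rcases hb ((g⁻¹ : ℝ ≃o ℝ) b) (Finset.mem_union_right _ (Finset.mem_image_of_mem _ hb')) with
      h1 | h1
    · left
      have := g.monotone h1
      rwa [hgi] at this
    · right
      have := g.monotone h1
      rwa [hgi] at this)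
  refine ⟨l + k, 2 ^ l * c + d, fun z hz => ?_⟩
  show f (g z) = _
  rw [hl (g z) ⟨g.monotone hz.1, g.monotone hz.2⟩, hk z hz, zpow_add₀ (by norm_num)]
  ring

/-- Thompson's group `F`: the increasing bijections of `ℝ` that are the identity outside `(0,1)`
and are piecewise linear with finitely many breakpoints, all dyadic rationals, and all slopes
integer powers of `2`. (Restricting to `[0,1]`, these are the orientation preserving piecewise
linear homeomorphisms of `[0,1]` with finitely many breakpoints, all dyadic, and slopes powers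
of 2.) -/
def F : Subgroup (ℝ ≃o ℝ) where
  carrier := {g | (∀ x, x ∉ Set.Ioo (0 : ℝ) 1 → g x = x) ∧
    ∃ B : Finset ℝ, (∀ b ∈ B, IsDyadic b) ∧ PLWith g B}
  one_mem' := ⟨fun _ _ => rfl, ∅, by simp, PLWith.one _⟩
  mul_mem' := by
    rintro f g ⟨hf0, B, hB, hf⟩ ⟨hg0, C, hC, hg⟩
    have hgi0 : ∀ x, x ∉ Set.Ioo (0 : ℝ) 1 → (g⁻¹ : ℝ ≃o ℝ) x = x := by
      intro x hx
      have : g x = x := hg0 x hx
      exact g.symm_apply_eq.2 this.symm
    refine ⟨fun x hx => ?_, _, ?_, hf.mul hg⟩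
    · show f (g x) = x
      rw [hg0 x hx, hf0 x hx]
    · intro b hb
      rw [Finset.mem_union, Finset.mem_image] at hb
      rcases hb with hb | ⟨a, ha, rfl⟩
      · exact hC b hb
      · refine PLWith.dyadic hg.inv ?_ (fun x hx => hgi0 x fun h => absurd h.1 (not_lt.2 hx))
          (hB a ha)
        intro b hb
        rw [Finset.mem_image] at hb
        obtain ⟨a, ha, rfl⟩ := hb
        exact PLWith.dyadic hg hC (fun x hx => hg0 x fun h => absurd h.1 (not_lt.2 hx)) (hC a ha)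
  inv_mem' := by
    rintro g ⟨hg0, C, hC, hg⟩
    refine ⟨fun x hx => ?_, _, ?_, hg.inv⟩
    · have : g x = x := hg0 x hx
      exact g.symm_apply_eq.2 this.symm
    · intro b hb
      rw [Finset.mem_image] at hb
      obtain ⟨a, ha, rfl⟩ := hb
      exact PLWith.dyadic hg hC (fun x hx => hg0 x fun h => absurd h.1 (not_lt.2 hx)) (hC a ha)

lemma F.out {g : ℝ ≃o ℝ} (hg : g ∈ F) {x : ℝ} (hx : x ∉ Set.Ioo (0 : ℝ) 1) : g x = x := hg.1 x hx

lemma F.dyadic {g : ℝ ≃o ℝ} (hg : g ∈ F) {x : ℝ} (hx : IsDyadic x) : IsDyadic (g x) := by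
  obtain ⟨h0, B, hB, h⟩ := hg
  exact h.dyadic hB (fun x hx => h0 x fun h => absurd h.1 (not_lt.2 hx)) hx

end Pool.Agent.LOF
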