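import Pool.Agent.helper46.LOF.FGroup

set_option autoImplicit false

/-!
# Germs at the top of the support
-/

namespace Pool.Agent.LOF

/-- `g` moves all points just to the left of `y` up -/
def Up (g : ℝ ≃o ℝ) (y : ℝ) : Prop := ∃ e < y, ∀ z, e < z → z < y → z < g z

/-- `g` moves all points just to the left of `y` down -/
def Down (g : ℝ ≃o ℝ) (y : ℝ) : Prop := ∃ e < y, ∀ z, e < z → z < y → g z < z

/-- `y` is the supremum of the support, and `g` moves the points just to the left of `y`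
in one direction. -/
def IsTop (g : ℝ ≃o ℝ) (y : ℝ) : Prop := (∀ z, y ≤ z → g z = z) ∧ (Up g y ∨ Down g y)

lemma not_up_down {g : ℝ ≃o ℝ} {y : ℝ} (h1 : Up g y) (h2 : Down g y) : False := by
  obtain ⟨e, he, h1⟩ := h1
  obtain ⟨e', he', h2⟩ := h2
  obtain ⟨z, hz1, hz2⟩ := exists_between (max_lt he he')
  rw [max_lt_iff] at hz1
  exact lt_asymm (h1 z hz1.1 hz2) (h2 z hz1.2 hz2)

lemma not_up_of_fix {g : ℝ ≃o ℝ} {y y' : ℝ} (h : y < y') (hg : ∀ z, y ≤ z → g z = z) :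
    ¬ (Up g y' ∨ Down g y') := by
  rintro (⟨e, he, h1⟩ | ⟨e, he, h1⟩)
  · obtain ⟨z, hz1, hz2⟩ := exists_between (max_lt he h)
    rw [max_lt_iff] at hz1
    have := h1 z hz1.1 hz2
    rw [hg z hz1.2.le] at this
    exact lt_irrefl _ this
  · obtain ⟨z, hz1, hz2⟩ := exists_between (max_lt he h)
    rw [max_lt_iff] at hz1
    have := h1 z hz1.1 hz2
    rw [hg z hz1.2.le] at this
    exact lt_irrefl _ this

lemma IsTop.unique {g : ℝ ≃o ℝ} {y y' : ℝ} (h : IsTop g y) (h' : IsTop g y') : y = y' := by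
  rcases lt_trichotomy y y' with h1 | h1 | h1
  · exact absurd h'.2 (not_up_of_fix h1 h.1)
  · exact h1
  · exact absurd h.2 (not_up_of_fix h1 h'.1)

lemma not_isTop_one (y : ℝ) : ¬ IsTop 1 y := by
  intro h
  exact not_up_of_fix (show y - 1 < y by linarith) (fun z _ => rfl) h.2

lemma Up.inv {g : ℝ ≃o ℝ} {y : ℝ} (hy : g y = y) (h : Up g y) : Down g⁻¹ y := by
  obtain ⟨e, he, h1⟩ := h
  refine ⟨g e, ?_, fun w hw1 hw2 => ?_⟩
  · have := g.strictMono he; rwa [hy] at this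
  · have hg : g ((g⁻¹ : ℝ ≃o ℝ) w) = w := g.apply_symm_apply w
    have i1 : e < (g⁻¹ : ℝ ≃o ℝ) w := by rw [← g.lt_iff_lt, hg]; exact hw1
    have i2 : (g⁻¹ : ℝ ≃o ℝ) w < y := by rw [← g.lt_iff_lt, hg, hy]; exact hw2
    have := h1 _ i1 i2
    rwa [hg] at this

lemma Down.inv {g : ℝ ≃o ℝ} {y : ℝ} (hy : g y = y) (h : Down g y) : Up g⁻¹ y := by
  obtain ⟨e, he, h1⟩ := h
  refine ⟨g e, ?_, fun w hw1 hw2 => ?_⟩
  · have := g.strictMono he; rwa [hy] at this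
  · have hg : g ((g⁻¹ : ℝ ≃o ℝ) w) = w := g.apply_symm_apply w
    have i1 : e < (g⁻¹ : ℝ ≃o ℝ) w := by rw [← g.lt_iff_lt, hg]; exact hw1
    have i2 : (g⁻¹ : ℝ ≃o ℝ) w < y := by rw [← g.lt_iff_lt, hg, hy]; exact hw2
    have := h1 _ i1 i2
    rwa [hg] at this

lemma IsTop.inv {g : ℝ ≃o ℝ} {y : ℝ} (h : IsTop g y) : IsTop g⁻¹ y := by
  refine ⟨fun z hz => g.symm_apply_eq.2 (h.1 z hz).symm, ?_⟩
  rcases h.2 with h2 | h2
  · exact Or.inr (h2.inv (h.1 y le_rfl))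
  · exact Or.inl (h2.inv (h.1 y le_rfl))

lemma Up.conj {f g : ℝ ≃o ℝ} {y : ℝ} (h : Up g y) : Up (f * g * f⁻¹) (f y) := by
  obtain ⟨e, he, h1⟩ := h
  refine ⟨f e, f.strictMono he, fun w hw1 hw2 => ?_⟩
  have hf : f ((f⁻¹ : ℝ ≃o ℝ) w) = w := f.apply_symm_apply w
  have i1 : e < (f⁻¹ : ℝ ≃o ℝ) w := by rw [← f.lt_iff_lt, hf]; exact hw1
  have i2 : (f⁻¹ : ℝ ≃o ℝ) w < y := by rw [← f.lt_iff_lt, hf]; exact hw2
  show w < f (g ((f⁻¹ : ℝ ≃o ℝ) w))
  calc w = f ((f⁻¹ : ℝ ≃o ℝ) w) := hf.symm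
    _ < _ := f.strictMono (h1 _ i1 i2)

lemma Down.conj {f g : ℝ ≃o ℝ} {y : ℝ} (h : Down g y) : Down (f * g * f⁻¹) (f y) := by
  obtain ⟨e, he, h1⟩ := h
  refine ⟨f e, f.strictMono he, fun w hw1 hw2 => ?_⟩
  have hf : f ((f⁻¹ : ℝ ≃o ℝ) w) = w := f.apply_symm_apply w
  have i1 : e < (f⁻¹ : ℝ ≃o ℝ) w := by rw [← f.lt_iff_lt, hf]; exact hw1
  have i2 : (f⁻¹ : ℝ ≃o ℝ) w < y := by rw [← f.lt_iff_lt, hf]; exact hw2
  show f (g ((f⁻¹ : ℝ ≃o ℝ) w)) < w
  calc f (g ((f⁻¹ : ℝ ≃o ℝ) w)) < f ((f⁻¹ : ℝ ≃o ℝ) w) := f.strictMono (h1 _ i1 i2)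
    _ = w := hf

lemma IsTop.conj {f g : ℝ ≃o ℝ} {y : ℝ} (h : IsTop g y) : IsTop (f * g * f⁻¹) (f y) := by
  refine ⟨fun z hz => ?_, ?_⟩
  · have hf : f ((f⁻¹ : ℝ ≃o ℝ) z) = z := f.apply_symm_apply z
    show f (g ((f⁻¹ : ℝ ≃o ℝ) z)) = z
    rw [h.1 _ (by rw [← f.le_iff_le, hf]; exact hz), hf]
  · rcases h.2 with h2 | h2
    · exact Or.inl h2.conj
    · exact Or.inr h2.conj

/-- every nontrivial element of `F` has a top, which is a dyadic point of `(0,1]` -/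
lemma exists_top {g : ℝ ≃o ℝ} (hg : g ∈ F) (h1 : g ≠ 1) :
    ∃ y, IsDyadic y ∧ y ∈ Set.Ioc (0 : ℝ) 1 ∧ IsTop g y := by
  classical
  obtain ⟨h0, B, hB, hPL⟩ := hg
  have hB' : ∀ b ∈ insert 0 (insert 1 B), IsDyadic b := by
    intro b hb
    simp only [Finset.mem_insert] at hb
    rcases hb with rfl | rfl | hb
    · simpa using IsDyadic.int 0
    · simpa using IsDyadic.int 1
    · exact hB b hb
  have hPL' : PLWith g (insert 0 (insert 1 B)) := hPL.mono (by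
    intro b hb; simp [hb])
  set C := insert 0 (insert 1 B) with hC
  have hlow : ∀ x ≤ 0, g x = x := fun x hx => h0 x fun h => absurd h.1 (not_lt.2 hx)
  have hhigh : ∀ x, 1 ≤ x → g x = x := fun x hx => h0 x fun h => absurd h.2 (not_lt.2 hx)
  have hne : (C.filter fun b => ∀ z, b ≤ z → g z = z).Nonempty :=
    ⟨1, by simp only [Finset.mem_filter]; exact ⟨by simp [hC], hhigh⟩⟩
  obtain ⟨y, hy, hmin⟩ := Finset.exists_min_image _ id hne
  simp only [Finset.mem_filter, id] at hy hmin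
  have hy0 : 0 < y := by
    by_contra hcon
    push Not at hcon
    apply h1
    ext z
    show g z = z
    rcases le_total z 0 with hz | hz
    · exact hlow z hz
    · exact hy.2 z (hcon.trans hz)
  have hy1 : y ≤ 1 := hmin 1 ⟨by simp [hC], hhigh⟩
  have hne2 : (C.filter fun b => b < y).Nonempty :=
    ⟨0, by simp only [Finset.mem_filter]; exact ⟨by simp [hC], hy0⟩⟩
  obtain ⟨b, hb, hmax⟩ := Finset.exists_max_image _ id hne2
  simp only [Finset.mem_filter, id] at hb hmax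
  obtain ⟨k, c, hk⟩ := hPL' b y hb.2 (by
    intro b' hb'
    by_cases h2 : y ≤ b'
    · exact Or.inr h2
    · push Not at h2
      exact Or.inl (hmax b' ⟨hb', h2⟩))
  have ey := hk y ⟨hb.2.le, le_rfl⟩
  rw [hy.2 y le_rfl] at ey
  have hform : ∀ z, b ≤ z → z ≤ y → g z = y + 2 ^ k * (z - y) := by
    intro z hz1 hz2
    rw [hk z ⟨hz1, hz2⟩]
    linear_combination -ey
  refine ⟨y, hB' y hy.1, ⟨hy0, hy1⟩, hy.2, ?_⟩
  rcases lt_trichotomy k 0 with hk0 | hk0 | hk0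
  · left
    refine ⟨b, hb.2, fun z hz1 hz2 => ?_⟩
    rw [hform z hz1.le hz2.le]
    have : (2 : ℝ) ^ k < 1 := zpow_lt_one_of_neg₀ (by norm_num) hk0
    nlinarith
  · exfalso
    have hb2 : ∀ z, b ≤ z → g z = z := by
      intro z hz
      rcases le_total z y with hzy | hzy
      · rw [hform z hz hzy, hk0]; simp
      · exact hy.2 z hzy
    exact absurd (hmin b ⟨hb.1, hb2⟩) (not_le.2 hb.2)
  · right
    refine ⟨b, hb.2, fun z hz1 hz2 => ?_⟩
    rw [hform z hz1.le hz2.le]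
    have : 1 < (2 : ℝ) ^ k := one_lt_zpow₀ (by norm_num) hk0
    nlinarith

/-- the dyadic rationals in `(0,1]` -/
def DD : Type := {y : ℝ // IsDyadic y ∧ y ∈ Set.Ioc (0 : ℝ) 1}

/-- the positive cone given by a choice of signs at the dyadic points -/
def Pos (ε : DD → Bool) (g : ℝ ≃o ℝ) : Prop :=
  ∃ y : DD, IsTop g y.1 ∧ (Up g y.1 ∧ ε y = true ∨ Down g y.1 ∧ ε y = false)

lemma pos_iff {ε : DD → Bool} {g : ℝ ≃o ℝ} {y : DD} (h : IsTop g y.1) :
    Pos ε g ↔ (Up g y.1 ∧ ε y = true ∨ Down g y.1 ∧ ε y = false) := by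
  constructor
  · rintro ⟨y', h1, h2⟩
    have : y' = y := Subtype.ext (h1.unique h)
    rw [← this]; exact h2
  · intro h2; exact ⟨y, h, h2⟩

lemma pos_mul {ε : DD → Bool} {f g : ℝ ≃o ℝ} (hf : Pos ε f) (hg : Pos ε g) :
    Pos ε (f * g) := by
  obtain ⟨y, hy, h2⟩ := hf
  obtain ⟨w, hw, h3⟩ := hg
  have gw : g w.1 = w.1 := hw.1 w.1 le_rfl
  have fy : f y.1 = y.1 := hy.1 y.1 le_rfl
  rcases lt_trichotomy y.1 w.1 with h | h | h
  · -- top is `w`
    have key : ∃ e < w.1, ∀ z, e < z → z < w.1 → (f * g) z = g z := by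
      refine ⟨(g⁻¹ : ℝ ≃o ℝ) y.1, ?_, fun z hz1 hz2 => ?_⟩
      · rw [← g.lt_iff_lt, show g ((g⁻¹ : ℝ ≃o ℝ) y.1) = y.1 from g.apply_symm_apply _, gw]
        exact h
      · show f (g z) = g z
        refine hy.1 _ ?_
        have := g.strictMono hz1
        rw [show g ((g⁻¹ : ℝ ≃o ℝ) y.1) = y.1 from g.apply_symm_apply _] at this
        exact this.le
    obtain ⟨e, he, hk⟩ := key
    have hU : Up g w.1 → Up (f * g) w.1 := by
      rintro ⟨e', he', h4⟩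
      refine ⟨max e e', max_lt he he', fun z hz1 hz2 => ?_⟩
      rw [max_lt_iff] at hz1
      rw [hk z hz1.1 hz2]; exact h4 z hz1.2 hz2
    have hD : Down g w.1 → Down (f * g) w.1 := by
      rintro ⟨e', he', h4⟩
      refine ⟨max e e', max_lt he he', fun z hz1 hz2 => ?_⟩
      rw [max_lt_iff] at hz1
      rw [hk z hz1.1 hz2]; exact h4 z hz1.2 hz2
    refine ⟨w, ⟨fun z hz => ?_, ?_⟩, ?_⟩
    · show f (g z) = z
      rw [hw.1 z hz, hy.1 z (h.le.trans hz)]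
    · rcases hw.2 with h5 | h5
      · exact Or.inl (hU h5)
      · exact Or.inr (hD h5)
    · rcases h3 with h5 | h5
      · exact Or.inl ⟨hU h5.1, h5.2⟩
      · exact Or.inr ⟨hD h5.1, h5.2⟩
  · -- same top
    have hyw : y = w := Subtype.ext h
    subst hyw
    have hfix : ∀ z, y.1 ≤ z → (f * g) z = z := by
      intro z hz
      show f (g z) = z
      rw [hw.1 z hz, hy.1 z hz]
    rcases h2 with ⟨⟨e, he, h4⟩, h5⟩ | ⟨⟨e, he, h4⟩, h5⟩
    · rcases h3 with ⟨⟨e', he', h6⟩, h7⟩ | ⟨_, h7⟩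
      · have hU : Up (f * g) y.1 := by
          refine ⟨max e e', max_lt he he', fun z hz1 hz2 => ?_⟩
          rw [max_lt_iff] at hz1
          have i1 := h6 z hz1.2 hz2
          have i2 : g z < y.1 := by
            have := g.strictMono hz2
            rwa [gw] at this
          exact i1.trans (h4 _ (hz1.1.trans i1) i2)
        exact ⟨y, ⟨hfix, Or.inl hU⟩, Or.inl ⟨hU, h5⟩⟩
      · rw [h5] at h7; simp at h7
    · rcases h3 with ⟨_, h7⟩ | ⟨⟨e', he', h6⟩, h7⟩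
      · rw [h5] at h7; simp at h7
      · have hD : Down (f * g) y.1 := by
          refine ⟨max e e', max_lt he he', fun z hz1 hz2 => ?_⟩
          rw [max_lt_iff] at hz1
          have i1 := h6 z hz1.2 hz2
          have i2 := h4 z hz1.1 hz2
          exact (f.strictMono i1).trans i2
        exact ⟨y, ⟨hfix, Or.inr hD⟩, Or.inr ⟨hD, h5⟩⟩
  · -- top is `y`
    have hk : ∀ z, w.1 < z → (f * g) z = f z := by
      intro z hz
      show f (g z) = f z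
      rw [hw.1 z hz.le]
    have hU : Up f y.1 → Up (f * g) y.1 := by
      rintro ⟨e', he', h4⟩
      refine ⟨max w.1 e', max_lt h he', fun z hz1 hz2 => ?_⟩
      rw [max_lt_iff] at hz1
      rw [hk z hz1.1]; exact h4 z hz1.2 hz2
    have hD : Down f y.1 → Down (f * g) y.1 := by
      rintro ⟨e', he', h4⟩
      refine ⟨max w.1 e', max_lt h he', fun z hz1 hz2 => ?_⟩
      rw [max_lt_iff] at hz1
      rw [hk z hz1.1]; exact h4 z hz1.2 hz2
    refine ⟨y, ⟨fun z hz => ?_, ?_⟩, ?_⟩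
    · rw [hk z (h.trans_le hz)]; exact hy.1 z hz
    · rcases hy.2 with h5 | h5
      · exact Or.inl (hU h5)
      · exact Or.inr (hD h5)
    · rcases h2 with h5 | h5
      · exact Or.inl ⟨hU h5.1, h5.2⟩
      · exact Or.inr ⟨hD h5.1, h5.2⟩

lemma not_pos_one (ε : DD → Bool) : ¬ Pos ε 1 := by
  rintro ⟨y, hy, _⟩
  exact not_isTop_one _ hy

lemma pos_or {ε : DD → Bool} {g : ℝ ≃o ℝ} (hg : g ∈ F) (h1 : g ≠ 1) : Pos ε g ∨ Pos ε g⁻¹ := by
  obtain ⟨y, hy1, hy2, hy⟩ := exists_top hg h1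
  have gy : g y = y := hy.1 y le_rfl
  rw [pos_iff (y := ⟨y, hy1, hy2⟩) hy, pos_iff (y := ⟨y, hy1, hy2⟩) hy.inv]
  cases h : ε ⟨y, hy1, hy2⟩
  · rcases hy.2 with h2 | h2
    · exact Or.inr (Or.inr ⟨h2.inv gy, rfl⟩)
    · exact Or.inl (Or.inr ⟨h2, rfl⟩)
  · rcases hy.2 with h2 | h2
    · exact Or.inl (Or.inl ⟨h2, rfl⟩)
    · exact Or.inr (Or.inl ⟨h2.inv gy, rfl⟩)

end Pool.Agent.LOF
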